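import Pool.Agent.H3.Poi2

open Pool.Agent.H3.Poi

namespace Pool.Agent.Results.MP_1a410c_mp.Pair

/-- Two different compatible geometric Poisson structures of order `3` on `ℝ³`, written in common
flat coordinates, neither of which is Darboux-Poisson. -/
theorem result : ∃ (g₁ g₂ : Met 3) (c₁ c₂ : Coef 3), IsExample g₁ c₁ g₂ c₂ := by
  have nd : ∀ b : ℝ, IsNondeg (gg (co 0) (co 1) (algebraMap ℝ (An 3) 1) (algebraMap ℝ (An 3) b)) :=
    fun b => ⟨fun i j => by fin_cases i <;> fin_cases j <;> rfl, fun x => by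
      simp [Matrix.det_fin_three, gg]⟩
  have hc : cc (co 0) (algebraMap ℝ (An 3) 1) ≠ 0 := fun h => by
    simpa [cc] using congrFun (congrFun (congrFun h 2) 2) 1
  unfold IsExample Met Coef
  refine ⟨_, _, _, _, nd 0, nd 2, poisson (data 1 0), poisson (data 1 2), fun l => ?_,
    fun k => ⟨fun h => ?_, fun h => ?_⟩, hc, hc⟩
  · convert poisson (data (1 + l) (2 * l)) using 1
    · funext i j
      ext x
      fin_cases i <;> fin_cases j <;> simp [gg] <;> ring
    · funext i j r
      ext x
      fin_cases i <;> fin_cases j <;> fin_cases r <;> simp [cc] <;> ring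
  · have h1 := congrArg (fun g : Fin 3 → Fin 3 → An 3 => (g 0 2).1 0) h
    have h2 := congrArg (fun g : Fin 3 → Fin 3 → An 3 => (g 2 2).1 0) h
    simp [gg, co] at h1 h2
    linarith
  · have h2 := congrArg (fun g : Fin 3 → Fin 3 → An 3 => (g 2 2).1 0) h
    simp [gg, co] at h2

end Pool.Agent.Results.MP_1a410c_mp.Pair
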